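import Mathlib

/-! # Lattice points of the open cube on the hyperplane `x₀ + 2 x₁ + 2 x₂ = 3 x₃` -/

set_option autoImplicit false

namespace Pool.Agent.Lib.MP_76d2cf_co

open Finset

/-- The pairs of numbers strictly between `0` and `t` with sum less than `m`. -/
noncomputable def B (t m : ℤ) : Finset (ℤ × ℤ) := (Ioo 0 t ×ˢ Ioo 0 t).filter fun p => p.1 + p.2 < m

/-- The pairs with sum `m`. -/
noncomputable def Ln (t m : ℤ) : Finset (ℤ × ℤ) := (Ioo 0 t ×ˢ Ioo 0 t).filter fun p => p.1 + p.2 = m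

theorem Ln_card₁ {t m : ℤ} (h1 : 1 ≤ m) (h2 : m ≤ t) : ((Ln t m).card : ℤ) = m - 1 := by
  have h : Ln t m = (Ioo 0 m).image (fun a => (a, m - a)) := by
    ext ⟨a, b⟩
    simp only [Ln, mem_filter, mem_product, mem_Ioo, mem_image, Prod.mk.injEq]
    constructor
    · rintro ⟨⟨⟨h1, h2⟩, h3, h4⟩, h5⟩
      exact ⟨a, ⟨by omega, by omega⟩, rfl, by omega⟩
    · rintro ⟨c, ⟨h1, h2⟩, rfl, rfl⟩
      omega
  rw [h, card_image_of_injective _ (fun a b h => (Prod.mk.inj h).1), Int.card_Ioo,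
    Int.toNat_of_nonneg (by omega)]
  ring

theorem Ln_card₂ {t m : ℤ} (h1 : t ≤ m) (h2 : m + 1 ≤ 2 * t) :
    ((Ln t m).card : ℤ) = 2 * t - m - 1 := by
  have h : Ln t m = (Ioo (m - t) t).image (fun a => (a, m - a)) := by
    ext ⟨a, b⟩
    simp only [Ln, mem_filter, mem_product, mem_Ioo, mem_image, Prod.mk.injEq]
    constructor
    · rintro ⟨⟨⟨h1, h2⟩, h3, h4⟩, h5⟩
      exact ⟨a, ⟨by omega, by omega⟩, rfl, by omega⟩
    · rintro ⟨c, ⟨h1, h2⟩, rfl, rfl⟩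
      omega
  rw [h, card_image_of_injective _ (fun a b h => (Prod.mk.inj h).1), Int.card_Ioo,
    Int.toNat_of_nonneg (by omega)]
  ring

theorem B_succ (t m : ℤ) : (B t (m + 1)).card = (B t m).card + (Ln t m).card := by
  rw [← card_union_of_disjoint]
  · congr 1
    ext ⟨a, b⟩
    simp only [B, Ln, mem_union, mem_filter, mem_product, mem_Ioo]
    omega
  · rw [disjoint_left]
    rintro ⟨a, b⟩ h1 h2
    simp only [B, Ln, mem_filter, mem_product, mem_Ioo] at h1 h2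
    omega

theorem B_one (t : ℤ) : B t 1 = ∅ := by
  rw [eq_empty_iff_forall_notMem]
  rintro ⟨a, b⟩ h
  simp only [B, mem_filter, mem_product, mem_Ioo] at h
  omega

theorem B_card₁ {t m : ℤ} (h1 : 1 ≤ m) (h2 : m ≤ t + 1) :
    2 * ((B t m).card : ℤ) = (m - 1) * (m - 2) := by
  induction m, h1 using Int.leInduction with
  | base => rw [B_one]; simp
  | succ m h1 ih =>
    have h3 := ih (by omega)
    rw [B_succ]
    push_cast
    rw [mul_add, h3, Ln_card₁ h1 (by omega)]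
    ring

theorem B_card₂ {t m : ℤ} (ht : 1 ≤ t) (h1 : t ≤ m) (h2 : m ≤ 2 * t) :
    2 * ((B t m).card : ℤ) = 2 * (t - 1) ^ 2 - (2 * t - m) * (2 * t - m - 1) := by
  induction m, h1 using Int.leInduction with
  | base =>
    rw [B_card₁ ht (by omega)]
    ring
  | succ m h1 ih =>
    have h3 := ih (by omega)
    rw [B_succ]
    push_cast
    rw [mul_add, h3, Ln_card₂ h1 (by omega)]
    ring

/-- The fibre over `y`. -/
noncomputable def A (t y : ℤ) : Finset (ℤ × ℤ) := (Ioo 0 t ×ˢ Ioo 0 t).filter fun p =>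
  0 < p.1 + p.2 + y ∧ p.1 + p.2 + y < t ∧ 0 < p.1 + p.2 + 3 * y ∧ p.1 + p.2 + 3 * y < t

theorem A_nonneg {t y : ℤ} (hy : 0 ≤ y) : A t y = B t (t - 3 * y) := by
  ext ⟨a, b⟩
  simp only [A, B, mem_filter, mem_product, mem_Ioo]
  omega

theorem A_neg {t z : ℤ} (hz : 0 ≤ z) (h : 2 * z < t) :
    ((A t (-z)).card : ℤ) = (B t (t + z)).card - (B t (3 * z + 1)).card := by
  have h1 : B t (t + z) = A t (-z) ∪ B t (3 * z + 1) := by
    ext ⟨a, b⟩
    simp only [A, B, mem_union, mem_filter, mem_product, mem_Ioo]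
    omega
  have h2 : Disjoint (A t (-z)) (B t (3 * z + 1)) := by
    rw [disjoint_left]
    rintro ⟨a, b⟩ h1 h2
    simp only [A, B, mem_filter, mem_product, mem_Ioo] at h1 h2
    omega
  rw [h1, card_union_of_disjoint h2]
  push_cast
  ring

/-- The lattice points of the open cube on the hyperplane, dimension four. -/
noncomputable def S4 (t : ℤ) : Finset (Fin 4 → ℤ) :=
  (Fintype.piFinset fun _ : Fin 4 => Ioo (0 : ℤ) t).filter fun x =>
    x 0 + 2 * x 1 + 2 * x 2 = 3 * x 3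

theorem mem_S4 {t : ℤ} {x : Fin 4 → ℤ} : x ∈ S4 t ↔
    ((0 < x 0 ∧ x 0 < t) ∧ (0 < x 1 ∧ x 1 < t) ∧ (0 < x 2 ∧ x 2 < t) ∧ (0 < x 3 ∧ x 3 < t)) ∧
      x 0 + 2 * x 1 + 2 * x 2 = 3 * x 3 := by
  simp only [S4, mem_filter, Fintype.mem_piFinset, Fin.forall_fin_succ, mem_Ioo]
  simp

theorem fiber_card (t y : ℤ) :
    ((S4 t).filter fun x => x 3 - x 1 - x 2 = y).card = (A t y).card := by
  refine card_nbij' (fun x => (x 1, x 2))
    (fun p => ![p.1 + p.2 + 3 * y, p.1, p.2, p.1 + p.2 + y]) ?_ ?_ ?_ ?_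
  · intro x hx
    simp only [coe_filter, mem_S4, Set.mem_ofPred_eq] at hx
    simp only [A, coe_filter, mem_product, mem_Ioo, Set.mem_ofPred_eq]
    omega
  · rintro ⟨a, b⟩ hp
    simp only [A, coe_filter, mem_product, mem_Ioo, Set.mem_ofPred_eq] at hp
    simp only [coe_filter, mem_S4, Set.mem_ofPred_eq, Matrix.cons_val_zero, Matrix.cons_val_one,
      Matrix.cons_val]
    omega
  · intro x hx
    simp only [coe_filter, mem_S4, Set.mem_ofPred_eq] at hx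
    ext i
    fin_cases i
    · show x 1 + x 2 + 3 * y = x 0
      omega
    · rfl
    · rfl
    · show x 1 + x 2 + y = x 3
      omega
  · rintro ⟨a, b⟩ _
    rfl

theorem S4_sum {t : ℕ} (ht : 1 ≤ t) : ((S4 t).card : ℤ) =
    ∑ i ∈ range ((t - 1) / 3 + 1), ((A t i).card : ℤ) +
      ∑ i ∈ range ((t - 1) / 2), ((A t (-((i : ℤ) + 1))).card : ℤ) := by
  classical
  have hmaps : ∀ x ∈ S4 t, x 3 - x 1 - x 2 ∈
      (range ((t - 1) / 3 + 1)).image (fun i : ℕ => (i : ℤ)) ∪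
        (range ((t - 1) / 2)).image (fun i : ℕ => -((i : ℤ) + 1)) := by
    intro x hx
    rw [mem_S4] at hx
    rw [mem_union, mem_image, mem_image]
    rcases le_or_gt 0 (x 3 - x 1 - x 2) with h | h
    · left
      obtain ⟨n, hn⟩ := Int.eq_ofNat_of_zero_le h
      refine ⟨n, ?_, hn.symm⟩
      rw [mem_range]
      omega
    · right
      obtain ⟨n, hn⟩ := Int.eq_ofNat_of_zero_le (show 0 ≤ -(x 3 - x 1 - x 2) - 1 by omega)
      refine ⟨n, ?_, by omega⟩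
      rw [mem_range]
      omega
  rw [card_eq_sum_card_fiberwise (f := fun x => x 3 - x 1 - x 2) (fun x hx => hmaps x hx)]
  rw [sum_union]
  · rw [sum_image (fun a _ b _ h => by simpa using h),
      sum_image (fun a _ b _ h => by simpa using h)]
    push_cast
    simp only [fiber_card]
  · rw [disjoint_left]
    intro a h1 h2
    rw [mem_image] at h1 h2
    obtain ⟨i, _, rfl⟩ := h1
    obtain ⟨j, _, hj⟩ := h2
    omega

theorem A_card₁ {t i : ℕ} (hi : i < (t - 1) / 3 + 1) (ht : 1 ≤ t) :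
    2 * ((A t i).card : ℤ) = ((t : ℤ) - 3 * i - 1) * (t - 3 * i - 2) := by
  rw [A_nonneg (by positivity), B_card₁ (by omega) (by omega)]

theorem A_card₂ {t i : ℕ} (hi : 3 * (i + 1) ≤ t) :
    2 * ((A t (-((i : ℤ) + 1))).card : ℤ) =
      2 * ((t : ℤ) - 1) ^ 2 - (t - i - 1) * (t - i - 2) - (3 * i + 3) * (3 * i + 2) := by
  rw [A_neg (by positivity) (by omega), mul_sub, B_card₂ (by omega) (by omega) (by omega),
    B_card₁ (by omega) (by omega)]
  ring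

theorem A_card₃ {t i : ℕ} (hi : t ≤ 3 * (i + 1)) (hi' : 2 * (i + 1) < t) :
    2 * ((A t (-((i : ℤ) + 1))).card : ℤ) =
      (2 * (t : ℤ) - 3 * i - 4) * (2 * t - 3 * i - 5) - (t - i - 1) * (t - i - 2) := by
  rw [A_neg (by positivity) (by omega), mul_sub, B_card₂ (by omega) (by omega) (by omega),
    B_card₂ (by omega) (by omega) (by omega)]
  ring

theorem sum_quad (a b c : ℝ) (n : ℕ) : ∑ i ∈ range n, (a + b * (i : ℝ) + c * (i : ℝ) ^ 2) =
    a * n + b * (n * (n - 1) / 2) + c * (n * (n - 1) * (2 * n - 1) / 6) := by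
  induction n with
  | zero => simp
  | succ n ih =>
    rw [sum_range_succ, ih]
    push_cast
    ring

/-- The count in terms of three numbers. -/
theorem S4_real {t n₁ n₂ n₃ : ℕ} (ht : 1 ≤ t) (h₁ : n₁ = (t - 1) / 3 + 1)
    (h₂ : n₃ + n₂ = (t - 1) / 2) (h₃ : n₃ = t / 3) :
    2 * ((S4 t).card : ℝ) =
      (((t : ℝ) - 1) * (t - 2) * n₁ + (9 - 6 * t) * (n₁ * (n₁ - 1) / 2) +
        9 * (n₁ * (n₁ - 1) * (2 * n₁ - 1) / 6)) +
      ((2 * ((t : ℝ) - 1) ^ 2 - (t - 1) * (t - 2) - 6) * n₃ +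
        (2 * t - 18) * (n₃ * (n₃ - 1) / 2) + (-10) * (n₃ * (n₃ - 1) * (2 * n₃ - 1) / 6)) +
      (((2 * (t : ℝ) - 3 * n₃ - 4) * (2 * t - 3 * n₃ - 5) - (t - n₃ - 1) * (t - n₃ - 2)) * n₂ +
        (-10 * t + 16 * n₃ + 24) * (n₂ * (n₂ - 1) / 2) +
        8 * (n₂ * (n₂ - 1) * (2 * n₂ - 1) / 6)) := by
  have h := S4_sum ht
  rw [← h₁, ← h₂, sum_range_add] at h
  have e1 : ∀ i ∈ range n₁, (2 * ((A t i).card : ℝ)) =
      ((t : ℝ) - 1) * (t - 2) + (9 - 6 * t) * (i : ℝ) + 9 * (i : ℝ) ^ 2 := by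
    intro i hi
    rw [mem_range, h₁] at hi
    have h4 : ((2 * ((A t i).card : ℤ) : ℤ) : ℝ) =
        ((((t : ℤ) - 3 * i - 1) * (t - 3 * i - 2) : ℤ) : ℝ) := by rw [A_card₁ hi ht]
    push_cast at h4
    rw [h4]
    ring
  have e2 : ∀ i ∈ range n₃, (2 * ((A t (-((i : ℤ) + 1))).card : ℝ)) =
      (2 * ((t : ℝ) - 1) ^ 2 - (t - 1) * (t - 2) - 6) + (2 * t - 18) * (i : ℝ) +
        (-10) * (i : ℝ) ^ 2 := by
    intro i hi
    rw [mem_range, h₃] at hi
    have h4 : ((2 * ((A t (-((i : ℤ) + 1))).card : ℤ) : ℤ) : ℝ) =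
        ((2 * ((t : ℤ) - 1) ^ 2 - (t - i - 1) * (t - i - 2) - (3 * i + 3) * (3 * i + 2) : ℤ) : ℝ) := by
      rw [A_card₂ (by omega)]
    push_cast at h4
    rw [h4]
    ring
  have e3 : ∀ i ∈ range n₂, (2 * ((A t (-(((n₃ + i : ℕ) : ℤ) + 1))).card : ℝ)) =
      ((2 * (t : ℝ) - 3 * n₃ - 4) * (2 * t - 3 * n₃ - 5) - (t - n₃ - 1) * (t - n₃ - 2)) +
        (-10 * t + 16 * n₃ + 24) * (i : ℝ) + 8 * (i : ℝ) ^ 2 := by
    intro i hi
    rw [mem_range] at hi
    have h4 : ((2 * ((A t (-(((n₃ + i : ℕ) : ℤ) + 1))).card : ℤ) : ℤ) : ℝ) =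
        (((2 * (t : ℤ) - 3 * (n₃ + i : ℕ) - 4) * (2 * t - 3 * (n₃ + i : ℕ) - 5) -
          (t - (n₃ + i : ℕ) - 1) * (t - (n₃ + i : ℕ) - 2) : ℤ) : ℝ) := by
      rw [A_card₃ (by omega) (by omega)]
    push_cast at h4 ⊢
    rw [h4]
    ring
  have h' : ((S4 t).card : ℝ) = ∑ i ∈ range n₁, ((A t i).card : ℝ) +
      (∑ i ∈ range n₃, ((A t (-((i : ℤ) + 1))).card : ℝ) +
        ∑ i ∈ range n₂, ((A t (-(((n₃ + i : ℕ) : ℤ) + 1))).card : ℝ)) := by
    exact_mod_cast h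
  rw [h', mul_add, mul_add, mul_sum, mul_sum, mul_sum, sum_congr rfl e1, sum_congr rfl e2,
    sum_congr rfl e3, sum_quad, sum_quad, sum_quad]
  ring

/-- The linear coefficient. -/
noncomputable def b1 (s : ℤ) : ℝ := if s % 2 = 0 then 7 / 6 else 25 / 24

/-- The constant coefficient. -/
noncomputable def b0 (s : ℤ) : ℝ := if s % 3 = 0 then -1 else if s % 3 = 1 then -(4 / 9) else -(8 / 9)

theorem S4_card {t : ℕ} (ht : 1 ≤ t) : ((S4 t).card : ℝ) =
    17 / 72 * (t : ℝ) ^ 3 - 5 / 6 * (t : ℝ) ^ 2 + b1 t * t + b0 t := by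
  have hcases : ∃ k : ℕ, t = 6 * k + 1 ∨ t = 6 * k + 2 ∨ t = 6 * k + 3 ∨ t = 6 * k + 4 ∨
      t = 6 * k + 5 ∨ t = 6 * k + 6 := ⟨(t - 1) / 6, by omega⟩
  obtain ⟨k, h | h | h | h | h | h⟩ := hcases
  · have h1 := S4_real (t := t) (n₁ := 2 * k + 1) (n₂ := k) (n₃ := 2 * k) ht (by omega)
      (by omega) (by omega)
    have h2 : b1 t = 25 / 24 := by
      unfold b1
      rw [if_neg (by omega)]
    have h3 : b0 t = -(4 / 9) := by
      unfold b0
      rw [if_neg (by omega), if_pos (by omega)]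
    rw [h2, h3]
    rw [h] at h1 ⊢
    push_cast at h1 ⊢
    linear_combination (1 / 2) * h1
  · have h1 := S4_real (t := t) (n₁ := 2 * k + 1) (n₂ := k) (n₃ := 2 * k) ht (by omega)
      (by omega) (by omega)
    have h2 : b1 t = 7 / 6 := by
      unfold b1
      rw [if_pos (by omega)]
    have h3 : b0 t = -(8 / 9) := by
      unfold b0
      rw [if_neg (by omega), if_neg (by omega)]
    rw [h2, h3]
    rw [h] at h1 ⊢
    push_cast at h1 ⊢
    linear_combination (1 / 2) * h1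
  · have h1 := S4_real (t := t) (n₁ := 2 * k + 1) (n₂ := k) (n₃ := 2 * k + 1) ht (by omega)
      (by omega) (by omega)
    have h2 : b1 t = 25 / 24 := by
      unfold b1
      rw [if_neg (by omega)]
    have h3 : b0 t = -1 := by
      unfold b0
      rw [if_pos (by omega)]
    rw [h2, h3]
    rw [h] at h1 ⊢
    push_cast at h1 ⊢
    linear_combination (1 / 2) * h1
  · have h1 := S4_real (t := t) (n₁ := 2 * k + 2) (n₂ := k) (n₃ := 2 * k + 1) ht (by omega)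
      (by omega) (by omega)
    have h2 : b1 t = 7 / 6 := by
      unfold b1
      rw [if_pos (by omega)]
    have h3 : b0 t = -(4 / 9) := by
      unfold b0
      rw [if_neg (by omega), if_pos (by omega)]
    rw [h2, h3]
    rw [h] at h1 ⊢
    push_cast at h1 ⊢
    linear_combination (1 / 2) * h1
  · have h1 := S4_real (t := t) (n₁ := 2 * k + 2) (n₂ := k + 1) (n₃ := 2 * k + 1) ht (by omega)
      (by omega) (by omega)
    have h2 : b1 t = 25 / 24 := by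
      unfold b1
      rw [if_neg (by omega)]
    have h3 : b0 t = -(8 / 9) := by
      unfold b0
      rw [if_neg (by omega), if_neg (by omega)]
    rw [h2, h3]
    rw [h] at h1 ⊢
    push_cast at h1 ⊢
    linear_combination (1 / 2) * h1
  · have h1 := S4_real (t := t) (n₁ := 2 * k + 2) (n₂ := k) (n₃ := 2 * k + 2) ht (by omega)
      (by omega) (by omega)
    have h2 : b1 t = 7 / 6 := by
      unfold b1
      rw [if_pos (by omega)]
    have h3 : b0 t = -1 := by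
      unfold b0
      rw [if_pos (by omega)]
    rw [h2, h3]
    rw [h] at h1 ⊢
    push_cast at h1 ⊢
    linear_combination (1 / 2) * h1

/-- The lattice points of the open cube of side `t` in dimension `d`. -/
noncomputable def Cb (d : ℕ) (t : ℤ) : Finset (Fin d → ℤ) := Fintype.piFinset fun _ => Ioo 0 t

/-- Those on the hyperplane. -/
noncomputable def Sm (m : ℕ) (t : ℤ) : Finset (Fin (m + 4) → ℤ) :=
  (Cb (m + 4) t).filter fun x => x 0 + 2 * x 1 + 2 * x 2 = 3 * x 3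

theorem mem_Cb {d : ℕ} {t : ℤ} {x : Fin d → ℤ} : x ∈ Cb d t ↔ ∀ i, 0 < x i ∧ x i < t := by
  simp only [Cb, Fintype.mem_piFinset, mem_Ioo]

theorem Cb_card (d : ℕ) {t : ℕ} (ht : 1 ≤ t) : ((Cb d t).card : ℝ) = ((t : ℝ) - 1) ^ d := by
  rw [Cb, Fintype.card_piFinset]
  simp only [Int.card_Ioo, prod_const, card_univ, Fintype.card_fin]
  have h : ((t : ℤ) - 0 - 1).toNat = t - 1 := by omega
  rw [h, Nat.cast_pow, Nat.cast_sub ht, Nat.cast_one]

/-- The first four coordinates. -/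
def hd {m : ℕ} (x : Fin (m + 4) → ℤ) (j : Fin 4) : ℤ := x (Fin.castLE (by omega) j)

/-- The other coordinates. -/
def tl {m : ℕ} (x : Fin (m + 4) → ℤ) (j : Fin m) : ℤ := x ⟨j.1 + 4, by omega⟩

/-- Join. -/
def jn {m : ℕ} (p : (Fin 4 → ℤ) × (Fin m → ℤ)) (i : Fin (m + 4)) : ℤ :=
  if h : i.1 < 4 then p.1 ⟨i.1, h⟩ else p.2 ⟨i.1 - 4, by omega⟩

theorem hd_0 {m : ℕ} (x : Fin (m + 4) → ℤ) : hd x 0 = x 0 :=
  congrArg x (Fin.ext (Nat.mod_eq_of_lt (by omega : 0 < m + 4)).symm)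
theorem hd_1 {m : ℕ} (x : Fin (m + 4) → ℤ) : hd x 1 = x 1 :=
  congrArg x (Fin.ext (Nat.mod_eq_of_lt (by omega : 1 < m + 4)).symm)
theorem hd_2 {m : ℕ} (x : Fin (m + 4) → ℤ) : hd x 2 = x 2 :=
  congrArg x (Fin.ext (Nat.mod_eq_of_lt (by omega : 2 < m + 4)).symm)
theorem hd_3 {m : ℕ} (x : Fin (m + 4) → ℤ) : hd x 3 = x 3 :=
  congrArg x (Fin.ext (Nat.mod_eq_of_lt (by omega : 3 < m + 4)).symm)

theorem hd_jn {m : ℕ} (p : (Fin 4 → ℤ) × (Fin m → ℤ)) : hd (jn p) = p.1 := by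
  funext j
  have h : (Fin.castLE (by omega : 4 ≤ m + 4) j).1 < 4 := j.2
  show jn p (Fin.castLE _ j) = p.1 j
  rw [jn, dif_pos h]
  rfl

theorem tl_jn {m : ℕ} (p : (Fin 4 → ℤ) × (Fin m → ℤ)) : tl (jn p) = p.2 := by
  funext j
  show jn p ⟨j.1 + 4, _⟩ = p.2 j
  rw [jn, dif_neg (by simp)]
  rfl

theorem jn_hd_tl {m : ℕ} (x : Fin (m + 4) → ℤ) : jn (hd x, tl x) = x := by
  funext i
  rw [jn]
  split_ifs with h
  · rfl
  · show x ⟨i.1 - 4 + 4, _⟩ = x i
    congr 1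
    apply Fin.ext
    show i.1 - 4 + 4 = i.1
    omega

theorem mem_Cb_iff {m : ℕ} {t : ℤ} {x : Fin (m + 4) → ℤ} :
    x ∈ Cb (m + 4) t ↔ hd x ∈ Cb 4 t ∧ tl x ∈ Cb m t := by
  rw [mem_Cb, mem_Cb, mem_Cb]
  constructor
  · exact fun h => ⟨fun j => h _, fun j => h _⟩
  · rintro ⟨h1, h2⟩ i
    by_cases hi : i.1 < 4
    · exact h1 ⟨i.1, hi⟩
    · have := h2 ⟨i.1 - 4, by omega⟩
      have e : (⟨i.1 - 4 + 4, by omega⟩ : Fin (m + 4)) = i := Fin.ext (by show i.1 - 4 + 4 = i.1; omega)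
      rw [tl] at this
      rwa [e] at this

theorem Sm_card (m : ℕ) (t : ℤ) : (Sm m t).card = (S4 t).card * (Cb m t).card := by
  rw [← card_product]
  refine card_nbij' (fun x => (hd x, tl x)) jn ?_ ?_ ?_ ?_
  · intro x hx
    rw [mem_coe, Sm, mem_filter, mem_Cb_iff] at hx
    rw [mem_coe, mem_product, S4, mem_filter]
    refine ⟨⟨hx.1.1, ?_⟩, hx.1.2⟩
    show hd x 0 + 2 * hd x 1 + 2 * hd x 2 = 3 * hd x 3
    rw [hd_0, hd_1, hd_2, hd_3]
    exact hx.2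
  · intro p hp
    rw [mem_coe, mem_product, S4, mem_filter] at hp
    rw [mem_coe, Sm, mem_filter, mem_Cb_iff, hd_jn, tl_jn, ← hd_0 (jn p), ← hd_1 (jn p),
      ← hd_2 (jn p), ← hd_3 (jn p), hd_jn]
    exact ⟨⟨hp.1.1, hp.2⟩, hp.1.2⟩
  · intro x _
    exact jn_hd_tl x
  · intro p _
    exact Prod.ext (hd_jn p) (tl_jn p)

end Pool.Agent.Lib.MP_76d2cf_co
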